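import Pool.Agent.Q17.RR.Stm
import Pool.Agent.Q251.DM.CDC

/-!
# Project RR, job CKC: the condition on the base group is enough for stabilisers of chains
-/

set_option autoImplicit false

open scoped Classical

noncomputable section

namespace Pool.Agent.Q151.RR

open Pool.Agent.H254R3.IN hiding NN
open Pool.Agent.Y63.KR Pool.Agent.Q17.WR Pool.Agent.Q17.DC Pool.Agent.Q17.AM Pool.Agent.Q17.OS
open Pool.Agent.Q17.DM Pool.Agent.Q17.RB Pool.Agent.Q111.OS Pool.Agent.Q17.RR

/-- the coefficients of the idempotent vanish outside the base group -/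
theorem coeff_FX {G A : Type} [Group G] [Group A] [Fintype A] (β : A → Set (G → ℂ)) (x : Wr G A A)
    (hx : x.right ≠ 1) : blockCoeff (FX β) x = 0 := by
  unfold blockCoeff
  refine mul_eq_zero_of_right _ (finsum_mem_eq_zero_of_forall_eq_zero fun χ hχ => ?_)
  obtain ⟨f, -, rfl⟩ := hχ
  have h2 : nca f x⁻¹ = 0 := by
    unfold nca
    rw [if_neg]
    rw [SemidirectProduct.inv_right]
    simpa using hx
  rw [h2, mul_zero]

theorem mem_FX {G A : Type} [Group G] [Group A] [Fintype A] [Fintype (Wr G A A)]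
    {O : ValuationSubring ℂ} {β : A → Set (G → ℂ)}
    (hblk : IsBlock O (FX β)) {χ' χ : Wr G A A → ℂ} (hχ' : IsIrr χ')
    (hχ : χ ∈ FX β)
    (h : ∀ x : Wr G A A, x.right = 1 → omega χ' x - omega χ x ∈ O.nonunits) :
    χ' ∈ FX β := by
  have hirr := hblk.irr
  have hcl := blockCoeff_cl hirr
  have hmem := blockCoeff_mem hblk
  have e1 := (red_Om hχ' hcl hmem).2
  have e2 := (red_Om (hirr χ hχ) hcl hmem).2
  have e3 : ∑ K : ConjClasses (Wr G A A), red O (blockCoeff (FX β) (rep K)) *
      red O (omega χ' (rep K)) = ∑ K : ConjClasses (Wr G A A),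
      red O (blockCoeff (FX β) (rep K)) * red O (omega χ (rep K)) := by
    refine Finset.sum_congr rfl fun K _ => ?_
    by_cases hK : (rep K).right = 1
    · rw [(red_eq_iff (hχ'.omega_mem O _) ((hirr χ hχ).omega_mem O _)).mpr (h _ hK)]
    · rw [coeff_FX β _ hK, red_zero, zero_mul, zero_mul]
  rw [e3, ← e2, Om_blockCoeff hirr hχ', Om_blockCoeff hirr (hirr χ hχ), if_pos hχ, red_one] at e1
  by_contra hn
  rw [if_neg hn, red_zero] at e1
  exact zero_ne_one e1

theorem t_CKC : S_EXC → S_FXI → S_FXB → S_CKC := by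
  intro hE _ hFXB p q _ _ G _ _ O hp D β hβ σ hσ ψ hψ
  have hF : Fintype (Wc G q) := Fintype.ofEquiv _ SemidirectProduct.equivProd.symm
  have hblk := (hFXB G (Cy q) p O hp β hβ.blk hβ.inj D hβ.dfg).1
  constructor
  · intro h
    obtain ⟨χ', h1, h2⟩ := Pool.Agent.Q251.DM.exc hE hp hσ hψ
    obtain ⟨χ₀, h0⟩ := hblk.nonempty
    have h3 : χ' ∈ FX β := mem_FX hblk h1 h0 (fun x hx => by
      have a := h2 x
      have b := h χ₀ h0 x hx
      have c := sub_mem a b
      rwa [sub_sub_sub_cancel_right] at c)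
    intro χ hχ x _
    have a := h2 x
    have b : omega χ x - omega χ' x ∈ O.nonunits :=
      (red_eq_iff ((hblk.irr χ hχ).omega_mem O _) (h1.omega_mem O _)).mp (hblk.red_eq hχ h3 x)
    have c := add_mem b a
    rwa [sub_add_sub_cancel] at c
  · intro h χ hχ x _
    exact h χ hχ x (Set.mem_univ _)

end Pool.Agent.Q151.RR
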