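import Pool.Agent.Q151.RR.SKB

/-!
# Project RR, job DZK: blocks with a character of defect zero
-/

set_option autoImplicit false

open scoped Classical

noncomputable section

namespace Pool.Agent.Q151.RR

open Pool.Agent.H254R3.IN hiding NN
open Pool.Agent.Y63.KR Pool.Agent.Q17.WR Pool.Agent.Q17.DC Pool.Agent.Q17.AM Pool.Agent.Q17.OS
open Pool.Agent.Q17.DM Pool.Agent.Q17.RB Pool.Agent.Q111.OS Pool.Agent.Q17.RR
open Pool.Agent.Q176.DC.DZV Pool.Agent.Q14.AM

theorem t_DZK : S_OUT → S_MMX → S_DZK := by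
  intro hOUT hMMX Γ _ _ p hp O hpO B hB hPos
  unfold Pos at hPos
  push Not at hPos
  obtain ⟨θ, hθB, hθn⟩ := hPos
  have hθ := hB.irr θ hθB
  have hdz : θ 1 / Nat.card Γ ∈ O := by
    have h1 := card_div_mem O hθ
    have h2 : red O ((Nat.card Γ : ℂ) / θ 1) ≠ 0 := fun h => hθn ((red_eq_zero_iff h1).mp h)
    have h3 := (inv_mem_of_red_ne h2).2.1
    rwa [inv_div] at h3
  have hblk := single_block hθ hdz
  have hBe : B = {θ} := by
    obtain ⟨χ₀, hχ₀, rfl⟩ := hB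
    obtain ⟨χ₁, hχ₁, h1⟩ := hblk
    rw [h1]
    have h2 : θ ∈ ({θ} : Set (Γ → ℂ)) := Set.mem_singleton θ
    rw [h1] at h2
    ext ψ
    constructor
    · rintro ⟨hψ, h3⟩
      refine ⟨hψ, fun x => ?_⟩
      have h4 := O.nonunits.add_mem (O.nonunits.sub_mem (h3 x) (hθB.2 x)) (h2.2 x)
      have h5 : omega ψ x - omega χ₀ x - (omega θ x - omega χ₀ x) + (omega θ x - omega χ₁ x) =
        omega ψ x - omega χ₁ x := by ring
      rw [h5] at h4
      exact h4
    · rintro ⟨hψ, h3⟩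
      refine ⟨hψ, fun x => ?_⟩
      have h4 := O.nonunits.add_mem (O.nonunits.sub_mem (h3 x) (h2.2 x)) (hθB.2 x)
      have h5 : omega ψ x - omega χ₁ x - (omega θ x - omega χ₁ x) + (omega θ x - omega χ₀ x) =
        omega ψ x - omega χ₀ x := by ring
      rw [h5] at h4
      exact h4
  rw [hBe]
  obtain ⟨D, hD⟩ := (hMMX Γ p O hpO {θ} hblk).1
  have hDb : D = ⊥ := by
    obtain ⟨x, ⟨P, hP⟩, -, hx⟩ := hD
    by_contra hne
    apply hx
    refine coeff_nonunit hpO hθ hdz D ?_ hne ?_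
    · rw [hP]
      exact P.isPGroup'.map _
    · intro d hd
      rw [hP] at hd
      obtain ⟨y, -, rfl⟩ := hd
      have h := Subgroup.mem_centralizer_iff.mp y.2 x (Set.mem_singleton x)
      exact h.symm
  refine SK_one p hblk hθ ∅ (fun s hs => absurd hs (Set.notMem_empty s)) ?_
  intro σ hσ h0 ψ hψ hi
  obtain ⟨P, hP⟩ := Set.nonempty_iff_ne_empty.mpr h0
  obtain ⟨g, hg⟩ := hOUT Γ p O hpO {θ} D hblk hD σ hσ ⟨ψ, hψ, hi⟩ P hP
  have h1 := hσ.lt P hP
  apply h1.ne'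
  rw [Subgroup.eq_bot_iff_forall]
  intro x hx
  have h2 := hg x hx
  rw [hDb, Subgroup.mem_bot] at h2
  have : x = g⁻¹ * (g * x * g⁻¹) * g := by group
  rw [this, h2]
  group

end Pool.Agent.Q151.RR
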