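import Pool.Agent.Q17.RR.Stm
import Pool.Agent.Q14.AM.DZB

/-!
# Project RR: the alternating sum if only the empty chain contributes
-/

set_option autoImplicit false

open scoped Classical

noncomputable section

namespace Pool.Agent.Q151.RR

open Pool.Agent.H254R3.IN hiding NN
open Pool.Agent.Y63.KR Pool.Agent.Q17.WR Pool.Agent.Q17.DC Pool.Agent.Q17.AM Pool.Agent.Q17.OS
open Pool.Agent.Q17.DM Pool.Agent.Q17.RB Pool.Agent.Q111.OS Pool.Agent.Q17.RR

variable {Γ : Type} [Group Γ]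

theorem stab_empty : chainStabilizer (∅ : Set (Subgroup Γ)) = ⊤ := by
  rw [eq_top_iff]
  intro g _
  rw [mem_chainStabilizer]
  intro P hP
  exact absurd hP (Set.notMem_empty P)

theorem ch_empty (p : ℕ) : Ch p (⊤ : Subgroup Γ) ⊥ ∅ where
  chain := IsChain.empty
  isp := fun P hP => absurd hP (Set.notMem_empty P)
  le := fun P hP => absurd hP (Set.notMem_empty P)
  lt := fun P hP => absurd hP (Set.notMem_empty P)

/-- only the empty chain contributes -/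
theorem alt_one (p : ℕ) (w : Set (Subgroup Γ) → ℤ)
    (h : ∀ σ, Ch p ⊤ ⊥ σ → σ ≠ ∅ → w σ = 0) : altX p ⊤ ⊥ w = w ∅ := by
  unfold altX
  have h1 : (Quotient.out (Quotient.mk (chX p (⊤ : Subgroup Γ) ⊥) ⟨∅, ch_empty p⟩)).1 = ∅ := by
    have h2 := Quotient.mk_out (s := chX p (⊤ : Subgroup Γ) ⊥) ⟨∅, ch_empty p⟩
    obtain ⟨g, -, hg⟩ := h2
    rw [← Set.image_eq_empty (f := conjSub g)]
    exact hg.symm
  rw [finsum_eq_single _ (Quotient.mk (chX p (⊤ : Subgroup Γ) ⊥) ⟨∅, ch_empty p⟩)]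
  · rw [h1, Set.ncard_empty, pow_zero, one_mul]
  · intro c hc
    rw [h _ (Quotient.out c).2, mul_zero]
    intro h3
    apply hc
    rw [← Quotient.out_eq c]
    congr 1
    exact Subtype.ext h3

/-- the number of characters of the whole group -/
theorem ck_top [Fintype Γ] {O : ValuationSubring ℂ} {θ : Γ → ℂ} (hB : IsBlock O {θ})
    (hθ : IsIrr θ) (K : Set (ℂ ≃+* ℂ)) (hK : ∀ s ∈ K, ∀ v, s (θ v) = θ v) (H : Subgroup Γ)
    (hH : H = ⊤) : ck O {θ} Set.univ K H = 1 := by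
  subst hH
  unfold ck
  have e : ∀ (ψ : (⊤ : Subgroup Γ) → ℂ) (x : Γ),
      ∑ᶠ y : {y : (⊤ : Subgroup Γ) // IsConj x (y : Γ)}, ψ y / ψ 1 =
      ∑ᶠ y : {y : Γ // IsConj x y}, ψ ⟨y, Subgroup.mem_top _⟩ / ψ ⟨1, Subgroup.mem_top _⟩ := by
    intro ψ x
    let e : {y : (⊤ : Subgroup Γ) // IsConj x (y : Γ)} ≃ {y : Γ // IsConj x y} :=
      { toFun := fun y => ⟨(y.1 : Γ), y.2⟩
        invFun := fun y => ⟨⟨y.1, Subgroup.mem_top _⟩, y.2⟩
        left_inv := fun y => rfl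
        right_inv := fun y => rfl }
    rw [← finsum_comp_equiv e]
    rfl
  rw [Nat.card_eq_one_iff_exists]
  refine ⟨⟨fun x => θ x, Pool.Agent.Q14.AM.irr_comp (⊤ : Subgroup Γ).subtype
    (fun g => ⟨⟨g, Subgroup.mem_top _⟩, rfl⟩) hθ, ?_, fun s hs g => hK s hs g⟩, ?_⟩
  · intro χ hχ x _
    have h7 := (e (fun x => θ x) x).trans (Pool.Agent.Q14.AM.omega_eq_sum hθ x).symm
    refine (congrArg (fun z => omega χ x - z ∈ O.nonunits) h7).mpr ?_
    rw [Set.mem_singleton_iff.mp hχ]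
    show omega θ x - omega θ x ∈ O.nonunits
    rw [sub_self]
    exact O.nonunits.zero_mem
  · rintro ⟨ψ, hψ, hi, -⟩
    apply Subtype.ext
    let f : Γ →* (⊤ : Subgroup Γ) :=
      { toFun := fun g => ⟨g, Subgroup.mem_top g⟩
        map_one' := rfl
        map_mul' := fun _ _ => rfl }
    have hψi : IsIrr (fun g => ψ (f g)) :=
      Pool.Agent.Q14.AM.irr_comp f (fun y => ⟨y.1, rfl⟩) hψ
    have hmem : (fun g => ψ (f g)) ∈ ({θ} : Set (Γ → ℂ)) := by
      obtain ⟨χ₀, hχ₀, hB⟩ := hB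
      have h0 : θ ∈ ({θ} : Set (Γ → ℂ)) := Set.mem_singleton θ
      rw [hB] at h0 ⊢
      refine ⟨hψi, fun x => ?_⟩
      have h1 := h0.2 x
      have h2 := hi θ (Set.mem_singleton θ) x (Set.mem_univ x)
      have h8 := (e ψ x).trans (Pool.Agent.Q14.AM.omega_eq_sum hψi x).symm
      rw [h8] at h2
      have h3 := O.nonunits.sub_mem h1 h2
      have h4 : omega θ x - omega χ₀ x - (omega θ x - omega (fun g => ψ (f g)) x) =
        omega (fun g => ψ (f g)) x - omega χ₀ x := by ring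
      rw [h4] at h3
      exact h3
    have h5 := Set.mem_singleton_iff.mp hmem
    funext y
    exact congrFun h5 (y : Γ)

/-- a group with only one contributing chain -/
theorem SK_one [Fintype Γ] (p : ℕ) {O : ValuationSubring ℂ} {θ : Γ → ℂ} (hB : IsBlock O {θ})
    (hθ : IsIrr θ) (K : Set (ℂ ≃+* ℂ)) (hK : ∀ s ∈ K, ∀ v, s (θ v) = θ v)
    (h : ∀ σ : Set (Subgroup Γ), Ch p ⊤ ⊥ σ → σ ≠ ∅ → ∀ ψ : chainStabilizer σ → ℂ, IsIrr ψ →
      ¬ Ind O {θ} Set.univ (chainStabilizer σ) ψ) : SK p O {θ} K = 1 := by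
  unfold SK
  rw [alt_one, ck_top hB hθ K hK _ stab_empty, Nat.cast_one]
  intro σ hσ h0
  have : ck O {θ} Set.univ K (chainStabilizer σ) = 0 := by
    unfold ck
    rw [Nat.card_eq_zero]
    left
    refine ⟨fun ψ => h σ hσ h0 ψ.1 ψ.2.1 ψ.2.2.1⟩
  rw [this, Nat.cast_zero]

end Pool.Agent.Q151.RR
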