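import Pool.Agent.Q17.RR.Stm
import Pool.Agent.Q66.RB.Rat
import Pool.Agent.Q261.RB.GCB
import Pool.Agent.Q210.RB.FXI

/-!
# Project RR, job STF: the automorphisms which stabilise `FX β`
-/

set_option autoImplicit false

open scoped Classical

noncomputable section

namespace Pool.Agent.Q151.RR

open Pool.Agent.H254R3.IN hiding NN
open Pool.Agent.Y63.KR Pool.Agent.Q17.WR Pool.Agent.Q17.DC Pool.Agent.Q17.AM Pool.Agent.Q17.OS
open Pool.Agent.Q17.DM Pool.Agent.Q17.RB Pool.Agent.Q111.OS Pool.Agent.Q17.RR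
open Pool.Agent.Q210.RB (shf nca_eq)

variable {G A : Type} [Group G] [Group A] [Fintype A]

/-- the shifted family has the same induced character -/
theorem nca_shf (f : A → G → ℂ) (a : A) : nca (shf f a) = (nca f : Wr G A A → ℂ) := by
  funext x
  unfold nca shf
  by_cases hx : x.right = 1
  · rw [if_pos hx, if_pos hx]
    have h := Equiv.sum_comp (Equiv.mulLeft a) (fun c : A => prf (fun ω => f (c * ω)) x.left)
    rw [← h]
    refine Finset.sum_congr rfl fun c _ => ?_
    show prf (fun ω => f (a * (c * ω))) x.left = prf (fun ω => f (a * c * ω)) x.left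
    simp only [mul_assoc]
  · rw [if_neg hx, if_neg hx]

/-- automorphisms -/
theorem nca_gal (s : ℂ ≃+* ℂ) (f : A → G → ℂ) :
    (fun x : Wr G A A => s (nca f x)) = nca (fun ω g => s (f ω g)) := by
  funext x
  unfold nca
  by_cases hx : x.right = 1
  · rw [if_pos hx, if_pos hx, map_sum]
    refine Finset.sum_congr rfl fun c _ => ?_
    unfold prf
    rw [map_prod]
  · rw [if_neg hx, if_neg hx, map_zero]

theorem t_STF : S_ZPR → S_FXI → S_STF := by
  intro hZ _ p q hp hq G _ _ O hpO D β hβ s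
  have hn0 : NeZero (Nat.card G) := ⟨Nat.card_pos.ne'⟩
  constructor
  · intro hst
    have hne : ∀ ω, ∃ f, f ∈ β ω := fun ω => (hβ.blk ω).nonempty
    choose f hf using hne
    have h1 : (nca f : Wr G (Cy q) (Cy q) → ℂ) ∈ FX β := ⟨f, hf, rfl⟩
    have h2 := (hst _).1 h1
    obtain ⟨h, hh, he⟩ := h2
    rw [nca_gal] at he
    obtain ⟨a, ha⟩ := nca_eq hZ h (fun ω g => s (f ω g))
      (fun ω => (hβ.blk ω).irr _ (hh ω))
      (fun ω => Pool.Agent.Q17.TC.irr_gal s ((hβ.blk ω).irr _ (hf ω))) he.symm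
    obtain ⟨u, hu⟩ := Pool.Agent.Q66.RB.exists_unit (n := Nat.card G) s
    have hcop : Nat.Coprime (u : ZMod (Nat.card G)).val (Nat.card G) :=
      ZMod.val_coe_unit_coprime u
    have hsv : ∀ χ : G → ℂ, IsIrr χ → (fun g => s (χ g)) =
        fun g => χ (g ^ (u : ZMod (Nat.card G)).val) := fun χ hχ =>
      funext fun g => Pool.Agent.Q17.TC.gal_char hu hχ (pow_card_eq_one')
    refine ⟨a, fun ω => ?_⟩
    have hB1 : IsBlock O (gc (u : ZMod (Nat.card G)).val (β ω)) :=
      Pool.Agent.Q261.RB.block_pow O _ hcop _ (hβ.blk ω)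
    have hm1 : (fun g => s (f ω g)) ∈ gc (u : ZMod (Nat.card G)).val (β ω) :=
      ⟨f ω, hf ω, hsv _ ((hβ.blk ω).irr _ (hf ω))⟩
    have hm2 : (fun g => s (f ω g)) ∈ β (a * ω) := by
      have h3 : (fun g => s (f ω g)) = h (a * ω) := congrFun ha ω
      rw [h3]
      exact hh _
    have hEq : gc (u : ZMod (Nat.card G)).val (β ω) = β (a * ω) :=
      Pool.Agent.Q66.RB.block_ext hB1 (hβ.blk _) hm1 hm2 fun _ => rfl
    intro χ
    rw [← hEq]
    constructor
    · intro hχ
      exact ⟨χ, hχ, hsv χ ((hβ.blk ω).irr _ hχ)⟩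
    · rintro ⟨θ, hθ, hθe⟩
      have h4 : (fun g => s (χ g)) = fun g => s (θ g) :=
        hθe.trans (hsv θ ((hβ.blk ω).irr _ hθ)).symm
      have h5 : χ = θ := funext fun g => s.injective (congrFun h4 g)
      rw [h5]
      exact hθ
  · rintro ⟨b, hb⟩ χ
    constructor
    · rintro ⟨f, hf, rfl⟩
      rw [nca_gal]
      refine ⟨shf (fun ω g => s (f ω g)) b⁻¹, fun ω => ?_, (nca_shf _ _).symm⟩
      have h := (hb (b⁻¹ * ω) (f (b⁻¹ * ω))).1 (hf _)
      rw [mul_inv_cancel_left] at h
      exact h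
    · rintro ⟨h, hh, he⟩
      refine ⟨fun ω g => s.symm (h (b * ω) g), fun ω => ?_, ?_⟩
      · rw [hb ω]
        simp only [RingEquiv.apply_symm_apply]
        exact hh _
      · have h1 : (fun ω g => s.symm (h (b * ω) g)) =
            shf (fun ω g => s.symm (h ω g)) b := rfl
        rw [h1, nca_shf, ← nca_gal s.symm h, ← he]
        funext x
        simp only [RingEquiv.symm_apply_apply]

end Pool.Agent.Q151.RR
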