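import Pool.Agent.Q151.RR.SKB
import Pool.Agent.Q261.OS.DPR

/-!
# Project RR, job TWK: products
-/

set_option autoImplicit false

open scoped Classical

noncomputable section

namespace Pool.Agent.Q151.RR

open Pool.Agent.H254R3.IN hiding NN
open Pool.Agent.Y63.KR Pool.Agent.Q17.WR Pool.Agent.Q17.DC Pool.Agent.Q17.AM Pool.Agent.Q17.OS
open Pool.Agent.Q17.DM Pool.Agent.Q17.RB Pool.Agent.Q111.OS Pool.Agent.Q17.RR

/-- the sum in `Ind` -/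
def Sm {Γ : Type} [Group Γ] (H : Subgroup Γ) (ψ : H → ℂ) (x : Γ) : ℂ :=
  ∑ᶠ y : {y : H // IsConj x (y : Γ)}, ψ y / ψ 1

section conj

variable {Γ : Type} [Group Γ]

theorem Sm_conj {H H' : Subgroup Γ} (c : H' ≃* H) (g : Γ)
    (hc : ∀ x, ((c x : H) : Γ) = g⁻¹ * x * g) (ψ : H → ℂ) (x : Γ) :
    Sm H' (fun y => ψ (c y)) x = Sm H ψ x := by
  unfold Sm
  let e : {y : H' // IsConj x (y : Γ)} ≃ {y : H // IsConj x (y : Γ)} :=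
    c.toEquiv.subtypeEquiv (fun y => by
      have h : IsConj (y : Γ) ((c y : H) : Γ) := isConj_iff.2 ⟨g⁻¹, by rw [hc, inv_inv]⟩
      exact ⟨fun h1 => h1.trans h, fun h1 => h1.trans h.symm⟩)
  rw [← finsum_comp_equiv e]
  refine finsum_congr fun y => ?_
  show ψ (c y.1) / ψ (c 1) = ψ (c y.1) / ψ 1
  rw [map_one]

theorem ck_of {O : ValuationSubring ℂ} {B : Set (Γ → ℂ)} {K : Set (ℂ ≃+* ℂ)}
    {H H' : Subgroup Γ} (c : H' ≃* H) (g : Γ)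
    (hc : ∀ x, ((c x : H) : Γ) = g⁻¹ * x * g) (ψ : H → ℂ)
    (h : IsIrr ψ ∧ Ind O B Set.univ H ψ ∧ ∀ s ∈ K, ∀ g, s (ψ g) = ψ g) :
    IsIrr (fun y => ψ (c y)) ∧ Ind O B Set.univ H' (fun y => ψ (c y)) ∧
      ∀ s ∈ K, ∀ g, s ((fun y => ψ (c y)) g) = (fun y => ψ (c y)) g := by
  refine ⟨irr_comp h.1 c, fun χ hχ x hx => ?_, fun s hs g => h.2.2 s hs (c g)⟩
  have h1 := h.2.1 χ hχ x hx
  have h2 := Sm_conj c g hc ψ x
  show omega χ x - Sm H' (fun y => ψ (c y)) x ∈ O.nonunits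
  rw [h2]
  exact h1

theorem ck_conj (O : ValuationSubring ℂ) (B : Set (Γ → ℂ)) (K : Set (ℂ ≃+* ℂ))
    {H H' : Subgroup Γ} (g : Γ) (hH : ∀ e, e ∈ H' ↔ g⁻¹ * e * g ∈ H) :
    ck O B Set.univ K H' = ck O B Set.univ K H := by
  let c : H' ≃* H :=
    { toFun := fun x => ⟨g⁻¹ * x * g, (hH _).1 x.2⟩
      invFun := fun x => ⟨g * x * g⁻¹, (hH _).2 (by
        have e : g⁻¹ * (g * (x : Γ) * g⁻¹) * g = x := by group
        rw [e]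
        exact x.2)⟩
      left_inv := fun x => Subtype.ext (by
        change g * (g⁻¹ * (x : Γ) * g) * g⁻¹ = x
        group)
      right_inv := fun x => Subtype.ext (by
        change g⁻¹ * (g * (x : Γ) * g⁻¹) * g = x
        group)
      map_mul' := fun x y => Subtype.ext (by
        change g⁻¹ * ((x : Γ) * y) * g = g⁻¹ * x * g * (g⁻¹ * y * g)
        group) }
  have hc : ∀ x, ((c x : H) : Γ) = g⁻¹ * x * g := fun x => rfl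
  have hc' : ∀ x, ((c.symm x : H') : Γ) = (g⁻¹)⁻¹ * x * g⁻¹ := fun x => by
    rw [inv_inv]
    rfl
  unfold ck
  refine Nat.card_congr (Equiv.symm ?_)
  exact
    { toFun := fun ψ => ⟨fun x => ψ.1 (c x), ck_of c g hc ψ.1 ψ.2⟩
      invFun := fun ψ => ⟨fun x => ψ.1 (c.symm x), ck_of c.symm g⁻¹ hc' ψ.1 ψ.2⟩
      left_inv := fun ψ => Subtype.ext (funext fun x => by
        change ψ.1 (c (c.symm x)) = ψ.1 x
        rw [c.apply_symm_apply])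
      right_inv := fun ψ => Subtype.ext (funext fun x => by
        change ψ.1 (c.symm (c x)) = ψ.1 x
        rw [c.symm_apply_apply]) }

/-- the orbit formula -/
theorem CS_eq (hALX : S_ALX) (p : ℕ) [Fact p.Prime] [Fintype Γ] (O : ValuationSubring ℂ)
    (B : Set (Γ → ℂ)) (K : Set (ℂ ≃+* ℂ)) :
    (Nat.card Γ : ℤ) * SK p O B K =
      CS p (⊤ : Subgroup Γ) ⊥ (fun H => (Nat.card H : ℤ) * (ck O B Set.univ K H : ℤ)) := by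
  have h := hALX p Γ ⊤ ⊥ (fun σ => (ck O B Set.univ K (chainStabilizer σ) : ℤ))
    (fun σ _ g _ => by
      show (ck O B Set.univ K (chainStabilizer (conjSub g '' σ)) : ℤ) = _
      rw [ck_conj O B K g (Pool.Agent.Q261.OS.stab_conj σ g)])
  rw [Subgroup.card_top] at h
  refine h.trans (finsum_congr fun σ => ?_)
  have h2 : Ns (⊤ : Subgroup Γ) σ.1 = chainStabilizer σ.1 := top_inf_eq _
  rw [h2]

end conj

section prd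

variable {A C : Type} [Group A] [Group C] [Fintype A] [Fintype C]

/-- the product character of a product subgroup -/
def pp {H₁ : Subgroup A} {H₂ : Subgroup C} (ψ₁ : H₁ → ℂ) (ψ₂ : H₂ → ℂ) : (H₁.prod H₂) → ℂ :=
  fun x => tp ψ₁ ψ₂ (Subgroup.prodEquiv H₁ H₂ x)

variable {H₁ : Subgroup A} {H₂ : Subgroup C}

omit [Fintype A] [Fintype C] in
theorem pp_one (ψ₁ : H₁ → ℂ) (ψ₂ : H₂ → ℂ) : pp ψ₁ ψ₂ 1 = ψ₁ 1 * ψ₂ 1 := rfl

omit [Fintype A] [Fintype C] in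
theorem pp_symm (ψ₁ : H₁ → ℂ) (ψ₂ : H₂ → ℂ) (a : H₁) (b : H₂) :
    pp ψ₁ ψ₂ ((Subgroup.prodEquiv H₁ H₂).symm (a, b)) = ψ₁ a * ψ₂ b := by
  unfold pp
  rw [MulEquiv.apply_symm_apply]
  rfl

theorem pp_irr {ψ₁ : H₁ → ℂ} {ψ₂ : H₂ → ℂ} (h₁ : IsIrr ψ₁) (h₂ : IsIrr ψ₂) :
    IsIrr (pp ψ₁ ψ₂) := irr_comp (irr_tp h₁ h₂) (Subgroup.prodEquiv H₁ H₂)

theorem irr_pp {ψ : (H₁.prod H₂) → ℂ} (h : IsIrr ψ) :
    ∃ (ψ₁ : H₁ → ℂ) (ψ₂ : H₂ → ℂ), IsIrr ψ₁ ∧ IsIrr ψ₂ ∧ ψ = pp ψ₁ ψ₂ := by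
  obtain ⟨f, g, hf, hg, hfg⟩ := exists_tp (irr_comp h (Subgroup.prodEquiv H₁ H₂).symm)
  refine ⟨f, g, hf, hg, ?_⟩
  funext x
  have h1 := congrFun hfg (Subgroup.prodEquiv H₁ H₂ x)
  simp only [MulEquiv.symm_apply_apply] at h1
  exact h1

theorem pp_inj {ψ₁ ψ₁' : H₁ → ℂ} {ψ₂ ψ₂' : H₂ → ℂ} (h₁ : IsIrr ψ₁) (h₁' : IsIrr ψ₁')
    (h₂ : IsIrr ψ₂) (h₂' : IsIrr ψ₂') (h : pp ψ₁ ψ₂ = pp ψ₁' ψ₂') : ψ₁ = ψ₁' ∧ ψ₂ = ψ₂' := by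
  apply tp_inj h₁ h₁' h₂ h₂'
  funext y
  have h1 := congrFun h ((Subgroup.prodEquiv H₁ H₂).symm y)
  unfold pp at h1
  rw [MulEquiv.apply_symm_apply] at h1
  exact h1

theorem Sm_pp (ψ₁ : H₁ → ℂ) (ψ₂ : H₂ → ℂ) (x₁ : A) (x₂ : C) :
    Sm (H₁.prod H₂) (pp ψ₁ ψ₂) (x₁, x₂) = Sm H₁ ψ₁ x₁ * Sm H₂ ψ₂ x₂ := by
  unfold Sm
  let e : {y : (H₁.prod H₂ : Subgroup (A × C)) // IsConj (x₁, x₂) (y : A × C)} ≃
      {y : H₁ // IsConj x₁ (y : A)} × {y : H₂ // IsConj x₂ (y : C)} :=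
    { toFun := fun y => (⟨⟨y.1.1.1, y.1.2.1⟩, ((isConj_prod _ _).1 y.2).1⟩,
        ⟨⟨y.1.1.2, y.1.2.2⟩, ((isConj_prod _ _).1 y.2).2⟩)
      invFun := fun y => ⟨⟨(y.1.1, y.2.1), ⟨y.1.1.2, y.2.1.2⟩⟩,
        (isConj_prod _ _).2 ⟨y.1.2, y.2.2⟩⟩
      left_inv := fun _ => rfl
      right_inv := fun _ => rfl }
  have h1 : (∑ᶠ y : {y : (H₁.prod H₂ : Subgroup (A × C)) // IsConj (x₁, x₂) (y : A × C)},
      pp ψ₁ ψ₂ y / pp ψ₁ ψ₂ 1) =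
      ∑ᶠ z : {y : H₁ // IsConj x₁ (y : A)} × {y : H₂ // IsConj x₂ (y : C)},
        (ψ₁ z.1 / ψ₁ 1) * (ψ₂ z.2 / ψ₂ 1) := by
    rw [← finsum_comp_equiv e]
    refine finsum_congr fun y => ?_
    rw [pp_one]
    have h2 : pp ψ₁ ψ₂ y = ψ₁ (e y).1 * ψ₂ (e y).2 := rfl
    rw [h2, mul_div_mul_comm]
  rw [h1]
  have i1 := Fintype.ofFinite {y : H₁ // IsConj x₁ (y : A)}
  have i2 := Fintype.ofFinite {y : H₂ // IsConj x₂ (y : C)}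
  rw [finsum_eq_sum_of_fintype, finsum_eq_sum_of_fintype, finsum_eq_sum_of_fintype,
    Fintype.sum_prod_type, Finset.sum_mul_sum]

omit [Fintype A] in
theorem Sm_one {H : Subgroup A} {ψ : H → ℂ} (h : ψ 1 ≠ 0) : Sm H ψ 1 = 1 := by
  unfold Sm
  have h1 : ∀ y : {y : H // IsConj (1 : A) (y : A)}, y.1 = 1 := by
    rintro ⟨y, hy⟩
    apply Subtype.ext
    exact isConj_one_right.1 hy
  let u : Unique {y : H // IsConj (1 : A) (y : A)} :=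
    { default := ⟨1, IsConj.refl _⟩
      uniq := fun y => Subtype.ext ((h1 y).trans rfl) }
  rw [finsum_unique]
  have h2 : ((default : {y : H // IsConj (1 : A) (y : A)}) : H) = 1 := rfl
  rw [h2, div_self h]

/-- the condition on the blocks -/
theorem ind_iff (O : ValuationSubring ℂ) {B₁ : Set (A → ℂ)} {B₂ : Set (C → ℂ)}
    (hB₁ : IsBlock O B₁) (hB₂ : IsBlock O B₂) {ψ₁ : H₁ → ℂ} {ψ₂ : H₂ → ℂ} (h₁ : IsIrr ψ₁)
    (h₂ : IsIrr ψ₂) :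
    Ind O (TB B₁ B₂) Set.univ (H₁.prod H₂) (pp ψ₁ ψ₂) ↔
      Ind O B₁ Set.univ H₁ ψ₁ ∧ Ind O B₂ Set.univ H₂ ψ₂ := by
  constructor
  · intro h
    constructor
    · intro χ₁ hχ₁ x₁ _
      obtain ⟨χ₂, hχ₂⟩ := hB₂.nonempty
      have h3 := h (tp χ₁ χ₂) ⟨χ₁, hχ₁, χ₂, hχ₂, rfl⟩ (x₁, 1) (Set.mem_univ _)
      have h4 := Sm_pp ψ₁ ψ₂ x₁ 1
      unfold Sm at h4
      rw [h4, omega_tp, omega_one (hB₂.irr χ₂ hχ₂), mul_one] at h3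
      have h5 := Sm_one h₂.one_ne
      unfold Sm at h5
      rw [h5, mul_one] at h3
      exact h3
    · intro χ₂ hχ₂ x₂ _
      obtain ⟨χ₁, hχ₁⟩ := hB₁.nonempty
      have h3 := h (tp χ₁ χ₂) ⟨χ₁, hχ₁, χ₂, hχ₂, rfl⟩ (1, x₂) (Set.mem_univ _)
      have h4 := Sm_pp ψ₁ ψ₂ 1 x₂
      unfold Sm at h4
      rw [h4, omega_tp, omega_one (hB₁.irr χ₁ hχ₁), one_mul] at h3
      have h5 := Sm_one h₁.one_ne
      unfold Sm at h5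
      rw [h5, one_mul] at h3
      exact h3
  · rintro ⟨k₁, k₂⟩ χ ⟨χ₁, hχ₁, χ₂, hχ₂, rfl⟩ ⟨x₁, x₂⟩ _
    have m1 : omega χ₁ x₁ - Sm H₁ ψ₁ x₁ ∈ O.nonunits := k₁ χ₁ hχ₁ x₁ (Set.mem_univ _)
    have m2 : omega χ₂ x₂ - Sm H₂ ψ₂ x₂ ∈ O.nonunits := k₂ χ₂ hχ₂ x₂ (Set.mem_univ _)
    show omega (tp χ₁ χ₂) (x₁, x₂) - Sm (H₁.prod H₂) (pp ψ₁ ψ₂) (x₁, x₂) ∈ O.nonunits
    rw [omega_tp, Sm_pp]
    show omega χ₁ x₁ * omega χ₂ x₂ - Sm H₁ ψ₁ x₁ * Sm H₂ ψ₂ x₂ ∈ O.nonunits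
    obtain ⟨a, ha⟩ : ∃ a, a = omega χ₁ x₁ := ⟨_, rfl⟩
    obtain ⟨b, hb⟩ : ∃ b, b = omega χ₂ x₂ := ⟨_, rfl⟩
    obtain ⟨c, hc⟩ : ∃ c, c = Sm H₁ ψ₁ x₁ := ⟨_, rfl⟩
    obtain ⟨e, he⟩ : ∃ e, e = Sm H₂ ψ₂ x₂ := ⟨_, rfl⟩
    have hbO : b ∈ O := by
      rw [hb]
      exact (hB₂.irr χ₂ hχ₂).omega_mem O _
    have haO : a ∈ O := by
      rw [ha]
      exact (hB₁.irr χ₁ hχ₁).omega_mem O _
    rw [← ha, ← hc] at m1
    rw [← hb, ← he] at m2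
    rw [← ha, ← hb, ← hc, ← he]
    have hcO : c ∈ O := by
      have h5 : a - (a - c) ∈ O := O.sub_mem haO (ValuationSubring.nonunits_subset m1)
      rwa [sub_sub_cancel] at h5
    have e1 : a * b - c * e = (a - c) * b + c * (b - e) := by ring
    rw [e1]
    rw [ValuationSubring.mem_nonunits_iff] at m1 m2 ⊢
    refine lt_of_le_of_lt (O.valuation.map_add _ _) (max_lt ?_ ?_)
    · rw [map_mul]
      have h6 : O.valuation b ≤ 1 := (O.valuation_le_one_iff b).2 hbO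
      calc O.valuation (a - c) * O.valuation b ≤ O.valuation (a - c) * 1 := by gcongr
        _ < 1 := by rw [mul_one]; exact m1
    · rw [map_mul]
      have h6 : O.valuation c ≤ 1 := (O.valuation_le_one_iff c).2 hcO
      calc O.valuation c * O.valuation (b - e) ≤ 1 * O.valuation (b - e) := by gcongr
        _ < 1 := by rw [one_mul]; exact m2

/-- automorphisms fix the degree -/
theorem fix_one {G : Type} [Group G] [Fintype G] {ψ : G → ℂ} (h : IsIrr ψ) (s : ℂ ≃+* ℂ) :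
    s (ψ 1) = ψ 1 := by
  obtain ⟨n, -, hn⟩ := h.deg
  rw [← hn, map_natCast]

theorem fix_iff (s : ℂ ≃+* ℂ) {ψ₁ : H₁ → ℂ} {ψ₂ : H₂ → ℂ} (h₁ : IsIrr ψ₁) (h₂ : IsIrr ψ₂) :
    (∀ g, s (pp ψ₁ ψ₂ g) = pp ψ₁ ψ₂ g) ↔ (∀ g, s (ψ₁ g) = ψ₁ g) ∧ ∀ g, s (ψ₂ g) = ψ₂ g := by
  constructor
  · intro h
    constructor
    · intro a
      have h3 := h ((Subgroup.prodEquiv H₁ H₂).symm (a, 1))
      rw [pp_symm, map_mul, fix_one h₂] at h3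
      exact mul_right_cancel₀ h₂.one_ne h3
    · intro b
      have h3 := h ((Subgroup.prodEquiv H₁ H₂).symm (1, b))
      rw [pp_symm, map_mul, fix_one h₁] at h3
      exact mul_left_cancel₀ h₁.one_ne h3
  · rintro ⟨k₁, k₂⟩ g
    obtain ⟨y, rfl⟩ := (Subgroup.prodEquiv H₁ H₂).symm.surjective g
    obtain ⟨a, b⟩ := y
    rw [pp_symm, map_mul, k₁, k₂]

theorem ck_pp (O : ValuationSubring ℂ) {B₁ : Set (A → ℂ)} {B₂ : Set (C → ℂ)}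
    (hB₁ : IsBlock O B₁) (hB₂ : IsBlock O B₂) (K : Set (ℂ ≃+* ℂ)) :
    ck O (TB B₁ B₂) Set.univ K (H₁.prod H₂) =
      ck O B₁ Set.univ K H₁ * ck O B₂ Set.univ K H₂ := by
  unfold ck
  rw [← Nat.card_prod]
  refine Nat.card_congr (Equiv.symm (Equiv.ofBijective (fun z =>
    (⟨pp z.1.1 z.2.1, pp_irr z.1.2.1 z.2.2.1,
      (ind_iff O hB₁ hB₂ z.1.2.1 z.2.2.1).2 ⟨z.1.2.2.1, z.2.2.2.1⟩,
      fun s hs => (fix_iff s z.1.2.1 z.2.2.1).2 ⟨z.1.2.2.2 s hs, z.2.2.2.2 s hs⟩⟩ :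
      {ψ : ↥(H₁.prod H₂) → ℂ // IsIrr ψ ∧
        Ind O (TB B₁ B₂) Set.univ (H₁.prod H₂) ψ ∧ ∀ s ∈ K, ∀ g, s (ψ g) = ψ g})) ⟨?_, ?_⟩))
  · rintro ⟨z₁, z₂⟩ ⟨w₁, w₂⟩ h
    obtain ⟨e1, e2⟩ := pp_inj z₁.2.1 w₁.2.1 z₂.2.1 w₂.2.1 (congrArg Subtype.val h)
    exact Prod.ext (Subtype.ext e1) (Subtype.ext e2)
  · rintro ⟨ψ, hi, hn, hf⟩
    obtain ⟨ψ₁, ψ₂, i1, i2, rfl⟩ := irr_pp hi
    have a := (ind_iff O hB₁ hB₂ i1 i2).1 hn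
    exact ⟨(⟨ψ₁, i1, a.1, fun s hs => ((fix_iff s i1 i2).1 (hf s hs)).1⟩,
      ⟨ψ₂, i2, a.2, fun s hs => ((fix_iff s i1 i2).1 (hf s hs)).2⟩), rfl⟩

end prd

theorem t_TWK : S_ALX → S_PRS → S_TWK := by
  intro hALX hPRS
  constructor
  · intro p _ O hp G₁ G₂ _ _ _ _ B₁ B₂ hB₁ hB₂ K
    have h1 := hPRS ℤ p G₁ G₂ ⊤ ⊥ ⊤ ⊥ bot_le bot_le IsPGroup.of_bot IsPGroup.of_bot
      (fun H => (Nat.card H : ℤ) * (ck O (TB B₁ B₂) Set.univ K H : ℤ))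
      (fun H => (Nat.card H : ℤ) * (ck O B₁ Set.univ K H : ℤ))
      (fun H => (Nat.card H : ℤ) * (ck O B₂ Set.univ K H : ℤ)) (fun H₁ H₂ => by
        show (Nat.card (H₁.prod H₂) : ℤ) * (ck O (TB B₁ B₂) Set.univ K (H₁.prod H₂) : ℤ) =
          (Nat.card H₁ : ℤ) * (ck O B₁ Set.univ K H₁ : ℤ) *
          ((Nat.card H₂ : ℤ) * (ck O B₂ Set.univ K H₂ : ℤ))
        rw [ck_pp O hB₁ hB₂ K, card_prod_sub]
        push_cast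
        ring)
    rw [Subgroup.top_prod_top, Subgroup.bot_prod_bot, ← CS_eq hALX, ← CS_eq hALX,
      ← CS_eq hALX, Nat.card_prod] at h1
    have h4 : (0 : ℤ) < (Nat.card G₁ : ℤ) * (Nat.card G₂ : ℤ) := by
      have a1 : 0 < Nat.card G₁ := Nat.card_pos
      have a2 : 0 < Nat.card G₂ := Nat.card_pos
      positivity
    refine mul_left_cancel₀ h4.ne' ?_
    push_cast at h1
    rw [h1]
    ring
  · intro p hpp O hp V _ _ hV ψ hψ K hK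
    have hdz : ψ 1 / Nat.card V ∈ O := by
      obtain ⟨n, -, hn⟩ := hψ.deg
      rw [← hn, div_eq_mul_inv]
      exact O.mul_mem _ _ (natCast_mem' n) (nat_inv_mem hp hV)
    have hblk := Pool.Agent.Q176.DC.DZV.single_block hψ hdz
    refine ⟨hblk, SK_one p hblk hψ K hK ?_⟩
    intro σ hσ h0 φ hφ hi
    obtain ⟨P, hP⟩ := Set.nonempty_iff_ne_empty.mpr h0
    have h1 := hσ.lt P hP
    obtain ⟨k, hk⟩ := IsPGroup.iff_card.mp (hσ.isp P hP)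
    have hk0 : k ≠ 0 := by
      rintro rfl
      rw [pow_zero] at hk
      exact h1.ne' (Subgroup.card_eq_one.mp hk)
    apply hV
    exact ((dvd_pow_self p hk0).trans (hk ▸ dvd_rfl)).trans (Subgroup.card_subgroup_dvd_card P)

end Pool.Agent.Q151.RR
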